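import Pool.Agent.H.MP_4002ad_an.A

set_option autoImplicit false

namespace Pool.Agent.H.MP_41f43f_an
open scoped ENNReal
open MeasureTheory Set Real FourierTransform Pool.Agent.H.MP_4002ad_an

theorem ibp (u u1 u2 : ℝ → ℂ) (h1 : ∀ t, HasDerivAt u (u1 t) t) (h2 : ∀ t, HasDerivAt u1 (u2 t) t)
    (c2 : Continuous u2) (ha : u (-(1 / 2)) = 0) (hb : u (1 / 2) = 0) (M : ℝ)
    (hM : ∀ t ∈ Icc (-(1 / 2) : ℝ) (1 / 2), ‖u t‖ ≤ M ∧ ‖u1 t‖ ≤ M ∧ ‖u2 t‖ ≤ M) (w : ℝ) :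
    ‖∫ t in (-(1 / 2) : ℝ)..(1 / 2), u t * Complex.exp (-2 * π * Complex.I * w * t)‖ ≤
      4 * M * (1 + w ^ 2)⁻¹ := by
  set c : ℂ := -2 * π * Complex.I * w with hc
  have he : ∀ t : ℝ, HasDerivAt (fun t : ℝ => Complex.exp (c * t)) (Complex.exp (c * t) * c) t :=
    fun t => by simpa using ((hasDerivAt_id (t : ℂ)).const_mul c).cexp.comp_ofReal
  have hn : ∀ t : ℝ, ‖Complex.exp (c * t)‖ = 1 := fun t => by
    rw [Complex.norm_exp]; simp [hc]
  have c1 : Continuous u1 := continuous_iff_continuousAt.mpr fun t => (h2 t).continuousAt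
  have ce : Continuous fun t : ℝ => Complex.exp (c * t) * c := by fun_prop
  have i1 := intervalIntegral.integral_mul_deriv_eq_deriv_mul (a := -(1 / 2)) (b := 1 / 2)
    (fun t _ => h1 t) (fun t _ => he t) (c1.intervalIntegrable _ _) (ce.intervalIntegrable _ _)
  have i2 := intervalIntegral.integral_mul_deriv_eq_deriv_mul (a := -(1 / 2)) (b := 1 / 2)
    (fun t _ => h2 t) (fun t _ => he t) (c2.intervalIntegrable _ _) (ce.intervalIntegrable _ _)
  simp only [← mul_assoc, intervalIntegral.integral_mul_const, ha, hb, zero_mul, sub_zero,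
    zero_sub] at i1 i2
  have bd : ∀ v : ℝ → ℂ, (∀ t ∈ Icc (-(1 / 2) : ℝ) (1 / 2), ‖v t‖ ≤ M) →
      ‖∫ t in (-(1 / 2) : ℝ)..(1 / 2), v t * Complex.exp (c * t)‖ ≤ M := fun v hv => by
    refine (intervalIntegral.norm_integral_le_of_norm_le_const (C := M) fun t ht => ?_).trans
      (by norm_num)
    rw [uIoc_of_le (by norm_num)] at ht
    rw [norm_mul, hn, mul_one]
    exact hv t ⟨ht.1.le, ht.2⟩
  have b0 := bd u fun t ht => (hM t ht).1
  have b2 := bd u2 fun t ht => (hM t ht).2.2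
  have b3 := (hM (1 / 2) (by norm_num)).2.1
  have b4 := (hM (-(1 / 2)) (by norm_num)).2.1
  set I := ∫ t in (-(1 / 2) : ℝ)..(1 / 2), u t * Complex.exp (c * t)
  have e1 : ‖I * c * c‖ ≤ 3 * M := by
    rw [i1, neg_mul, norm_neg, i2]
    refine (norm_sub_le _ _).trans (le_trans (add_le_add (norm_sub_le _ _) b2) ?_)
    rw [norm_mul, norm_mul, hn, hn]
    linarith
  have e2 : ‖c‖ = 2 * π * |w| := by simp [hc, abs_of_pos pi_pos]
  rw [norm_mul, norm_mul, e2] at e1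
  rw [le_mul_inv_iff₀ (by positivity)]
  have e3 : w ^ 2 ≤ 2 * π * |w| * (2 * π * |w|) := by
    have : 2 * π * |w| * (2 * π * |w|) = 4 * π ^ 2 * w ^ 2 := by rw [← sq_abs w]; ring
    rw [this]
    nlinarith [pi_gt_three, sq_nonneg w, mul_nonneg (sq_nonneg w) (sq_nonneg (π - 3))]
  nlinarith [mul_le_mul_of_nonneg_left e3 (norm_nonneg I)]

noncomputable def g (t : ℝ) : ℂ := if |t| ≤ 1 / 2 then (sin (2 * π * t) : ℝ) else 0

theorem g_eq (t : ℝ) :
    g t = (Ioc (-(1 / 2) : ℝ) (1 / 2)).indicator (fun t => ((sin (2 * π * t) : ℝ) : ℂ)) t := by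
  simp only [g, indicator, mem_Ioc, abs_le]
  split_ifs with h1 h2 h2
  · rfl
  · have : t = -(1 / 2) := by grind
    rw [this, show 2 * π * -(1 / 2) = -π by ring]
    simp
  · exact absurd ⟨h2.1.le, h2.2⟩ h1
  · rfl

theorem g_mem (p : ℝ≥0∞) : MemLp g p volume := by
  rw [funext g_eq, memLp_indicator_iff_restrict measurableSet_Ioc]
  refine MemLp.of_bound (Continuous.aestronglyMeasurable (by fun_prop)) 1 (.of_forall fun t => ?_)
  rw [Complex.norm_real]
  exact abs_sin_le_one _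

theorem g_meas : Measurable g := by
  rw [funext g_eq]
  exact Measurable.indicator (Continuous.measurable (by fun_prop)) measurableSet_Ioc

theorem g_odd (t : ℝ) : g (-t) = -g t := by
  simp only [g, abs_neg, mul_neg, sin_neg]
  split_ifs <;> simp

theorem gau (x t : ℝ) (ht : t ∈ Icc (-(1 / 2) : ℝ) (1 / 2)) :
    (1 + (t - x) ^ 2) * exp (-π * (t - x) ^ 2) ≤ 2 * (1 + x ^ 2)⁻¹ := by
  have h1 := Real.quadratic_le_exp_of_nonneg (x := π * (t - x) ^ 2) (by positivity)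
  have h2 : 1 + x ^ 2 ≤ 2 * (1 + (t - x) ^ 2) := by nlinarith [ht.1, ht.2, sq_nonneg (2 * t - x)]
  set s := (t - x) ^ 2 with hs
  have s0 : 0 ≤ s := by positivity
  have h3 : 3 * s ≤ π * s := by nlinarith [pi_gt_three]
  rw [neg_mul, Real.exp_neg, le_mul_inv_iff₀ (by positivity), mul_right_comm,
    mul_inv_le_iff₀ (exp_pos _)]
  nlinarith

theorem s0 : Integrable (fun p : ℝ × ℝ => ∫ t : ℝ, g t
      * Complex.exp (-(Real.pi : ℂ) * (((t - p.1) ^ 2 : ℝ) : ℂ))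
      * Complex.exp (-2 * (Real.pi : ℂ) * Complex.I * (p.2 : ℂ) * (t : ℂ)))
    (volume : Measure (ℝ × ℝ)) := by
  refine Integrable.mono' (((integrable_inv_one_add_sq.const_mul 800).mul_prod
    integrable_inv_one_add_sq)) ?_ (.of_forall fun p => ?_)
  · refine (StronglyMeasurable.integral_prod_right' (f := fun y : (ℝ × ℝ) × ℝ => g y.2
      * Complex.exp (-(Real.pi : ℂ) * (((y.2 - y.1.1) ^ 2 : ℝ) : ℂ))
      * Complex.exp (-2 * (Real.pi : ℂ) * Complex.I * (y.1.2 : ℂ) * (y.2 : ℂ)))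
      (Measurable.stronglyMeasurable ?_)).aestronglyMeasurable
    exact ((g_meas.comp measurable_snd).mul (Continuous.measurable (by fun_prop))).mul
      (Continuous.measurable (by fun_prop))
  obtain ⟨x, w⟩ := p
  have hE : ∀ t, HasDerivAt (fun t => exp (-π * (t - x) ^ 2))
      (exp (-π * (t - x) ^ 2) * (-π * (2 * (t - x)))) t := fun t => by
    simpa using ((((hasDerivAt_id t).sub_const x).fun_pow 2).const_mul (-π)).exp
  have hS : ∀ t, HasDerivAt (fun t => sin (2 * π * t)) (cos (2 * π * t) * (2 * π)) t := fun t => by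
    simpa using ((hasDerivAt_id t).const_mul (2 * π)).sin
  have hC : ∀ t, HasDerivAt (fun t => cos (2 * π * t)) (-sin (2 * π * t) * (2 * π)) t := fun t => by
    simpa using ((hasDerivAt_id t).const_mul (2 * π)).cos
  have key := ibp (fun t => ((sin (2 * π * t) * exp (-π * (t - x) ^ 2) : ℝ) : ℂ))
    (fun t => ((2 * π * (cos (2 * π * t) - (t - x) * sin (2 * π * t)) *
      exp (-π * (t - x) ^ 2) : ℝ) : ℂ))
    (fun t => ((2 * π * (2 * π * (((t - x) ^ 2 - 1) * sin (2 * π * t) -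
      2 * (t - x) * cos (2 * π * t)) - sin (2 * π * t)) * exp (-π * (t - x) ^ 2) : ℝ) : ℂ))
    (fun t => (((hS t).fun_mul (hE t)).congr_deriv (by ring)).ofReal_comp)
    (fun t => (((((hC t).fun_sub (((hasDerivAt_id t).sub_const x).fun_mul (hS t))).const_mul
      (2 * π)).fun_mul (hE t)).congr_deriv (by simp only [id]; ring)).ofReal_comp)
    (by fun_prop) (by rw [show 2 * π * -(1 / 2) = -π by ring]; simp)
    (by rw [show 2 * π * (1 / 2) = π by ring]; simp) (200 * (1 + x ^ 2)⁻¹) (fun t ht => by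
      have h1 := gau x t ht
      have e0 := exp_pos (-π * (t - x) ^ 2)
      have a1 := abs_le.mp (abs_sin_le_one (2 * π * t))
      have a2 := abs_le.mp (abs_cos_le_one (2 * π * t))
      have p3 := pi_gt_three
      have p4 := pi_lt_d2
      set s := t - x
      set S := sin (2 * π * t)
      set C := cos (2 * π * t)
      have bd : ∀ y : ℝ, |y| ≤ 100 * (1 + s ^ 2) →
          ‖((y * exp (-π * s ^ 2) : ℝ) : ℂ)‖ ≤ 200 * (1 + x ^ 2)⁻¹ := fun y hy => by
        rw [Complex.norm_real, Real.norm_eq_abs, abs_mul, abs_of_pos e0]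
        nlinarith [mul_le_mul_of_nonneg_right hy e0.le]
      have q1 : |C - s * S| ≤ 2 * (1 + s ^ 2) := by
        rw [abs_le]; constructor <;> nlinarith [sq_nonneg (s - S), sq_nonneg (s + S)]
      have q2 : |(s ^ 2 - 1) * S - 2 * s * C| ≤ 2 * (1 + s ^ 2) := by
        rw [abs_le]
        constructor <;> nlinarith [sq_nonneg (s - C), sq_nonneg (s + C), sq_nonneg s]
      have q0 : |S| ≤ 1 + s ^ 2 := by rw [abs_le]; constructor <;> nlinarith [sq_nonneg s]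
      have q3 : |2 * π * ((s ^ 2 - 1) * S - 2 * s * C) - S| ≤ 14 * (1 + s ^ 2) := by
        refine (abs_sub _ _).trans ?_
        rw [abs_mul, abs_of_pos (by positivity : 0 < 2 * π)]
        nlinarith [abs_nonneg ((s ^ 2 - 1) * S - 2 * s * C)]
      refine ⟨bd _ (by nlinarith [sq_nonneg s]), bd _ ?_, bd _ ?_⟩
      · rw [abs_mul, abs_of_pos (by positivity : 0 < 2 * π)]
        nlinarith [abs_nonneg (C - s * S)]
      · rw [abs_mul, abs_of_pos (by positivity : 0 < 2 * π)]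
        nlinarith [abs_nonneg (2 * π * ((s ^ 2 - 1) * S - 2 * s * C) - S)]) w
  refine le_trans (le_of_eq ?_) (key.trans (le_of_eq (by ring)))
  rw [intervalIntegral.integral_of_le (by norm_num), ← integral_indicator measurableSet_Ioc]
  congr 2
  funext t
  rw [g_eq]
  by_cases h : t ∈ Ioc (-(1 / 2) : ℝ) (1 / 2)
  · simp only [indicator_of_mem h]
    push_cast
    rfl
  · simp only [indicator_of_notMem h, zero_mul]

def Zc (c : ℝ) : Set ℝ := range fun k : ℤ => (k : ℝ) + c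

theorem cnt (c z R : ℝ) (hR : 0 ≤ R) : (Zc c ∩ Ico z (z + R)).Finite ∧
    R - 1 ≤ (Zc c ∩ Ico z (z + R)).ncard ∧ ((Zc c ∩ Ico z (z + R)).ncard : ℝ) ≤ R + 1 := by
  have e : Zc c ∩ Ico z (z + R) =
      (fun k : ℤ => (k : ℝ) + c) '' (Finset.Ico ⌈z - c⌉ ⌈z - c + R⌉ : Set ℤ) := by
    ext x
    simp only [Zc, mem_inter_iff, mem_range, mem_Ico, mem_image, Finset.coe_Ico, Int.ceil_le,
      Int.lt_ceil]
    constructor
    · rintro ⟨⟨k, rfl⟩, h1, h2⟩
      exact ⟨k, ⟨by linarith, by linarith⟩, rfl⟩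
    · rintro ⟨k, ⟨h1, h2⟩, rfl⟩
      exact ⟨⟨k, rfl⟩, by linarith, by linarith⟩
  rw [e, ncard_image_of_injective _ (fun a b h => by simpa using h), ncard_coe_finset, Int.card_Ico]
  refine ⟨(Finset.finite_toSet _).image _, ?_⟩
  have h1 : 0 ≤ ⌈z - c + R⌉ - ⌈z - c⌉ := sub_nonneg.mpr (Int.ceil_mono (by linarith))
  have h2 : (((⌈z - c + R⌉ - ⌈z - c⌉).toNat : ℕ) : ℝ) = ⌈z - c + R⌉ - ⌈z - c⌉ := by
    rw [← Int.cast_natCast, Int.toNat_of_nonneg h1]; push_cast; rfl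
  rw [h2]
  constructor <;> linarith [Int.le_ceil (z - c + R), Int.ceil_lt_add_one (z - c + R),
    Int.le_ceil (z - c), Int.ceil_lt_add_one (z - c)]

noncomputable def ph (q : Fin 2 × ℤ × ℤ) : ℝ × ℝ := (q.2.2 + (q.1 : ℕ) / 4, q.2.1)

theorem ph_inj : Function.Injective ph := by
  rintro ⟨b, l, k⟩ ⟨b', l', k'⟩ h
  simp only [ph, Prod.mk.injEq, Int.cast_inj] at h ⊢
  have h1 : ((4 * k + (b : ℕ) : ℤ) : ℝ) = (4 * k' + (b' : ℕ) : ℤ) := by push_cast; linarith [h.1]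
  norm_cast at h1
  have := b.2
  have := b'.2
  exact ⟨Fin.ext (by omega), h.2, by omega⟩

theorem ph_range : range ph = (Zc 0 ∪ Zc (1 / 4)) ×ˢ Zc 0 := by
  ext ⟨x, y⟩
  simp only [ph, Zc, mem_range, Prod.mk.injEq, Prod.exists, mem_prod, mem_union, Fin.exists_fin_two]
  constructor
  · rintro (⟨l, k, h1, h2⟩ | ⟨l, k, h1, h2⟩)
    · exact ⟨Or.inl ⟨k, by simpa using h1⟩, l, by simpa using h2⟩
    · exact ⟨Or.inr ⟨k, by simpa using h1⟩, l, by simpa using h2⟩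
  · rintro ⟨⟨k, h1⟩ | ⟨k, h1⟩, l, h2⟩
    · exact Or.inl ⟨l, k, by simpa using h1, by simpa using h2⟩
    · exact Or.inr ⟨l, k, by simpa using h1, by simpa using h2⟩

theorem cnt2 (z : ℝ × ℝ) (R : ℝ) (hR : 1 ≤ R) :
    (range ph ∩ (Ico z.1 (z.1 + R) ×ˢ Ico z.2 (z.2 + R))).Finite ∧
    2 * (R - 1) ^ 2 ≤ (range ph ∩ (Ico z.1 (z.1 + R) ×ˢ Ico z.2 (z.2 + R))).ncard ∧
    ((range ph ∩ (Ico z.1 (z.1 + R) ×ˢ Ico z.2 (z.2 + R))).ncard : ℝ) ≤ 2 * (R + 1) ^ 2 := by
  obtain ⟨a1, a2, a3⟩ := cnt 0 z.1 R (by linarith)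
  obtain ⟨b1, b2, b3⟩ := cnt (1 / 4) z.1 R (by linarith)
  obtain ⟨c1, c2, c3⟩ := cnt 0 z.2 R (by linarith)
  rw [ph_range, prod_inter_prod, union_inter_distrib_right, ncard_prod, ncard_union_eq ?_ a1 b1]
  · refine ⟨(a1.union b1).prod c1, ?_⟩
    push_cast
    constructor <;> nlinarith
  · refine disjoint_left.mpr ?_
    rintro x ⟨⟨k, rfl⟩, -⟩ ⟨⟨l, h⟩, -⟩
    have h1 : ((4 * l + 1 : ℤ) : ℝ) = (4 * k : ℤ) := by push_cast; simp only at h; linarith
    norm_cast at h1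
    omega

theorem dens : Filter.liminf (fun R : ℝ => ⨅ z : ℝ × ℝ,
      ((range ph ∩ (Ico z.1 (z.1 + R) ×ˢ Ico z.2 (z.2 + R))).ncard : ℝ) / R ^ 2)
    Filter.atTop = 2 := by
  refine Filter.Tendsto.liminf_eq ?_
  have h : ∀ c : ℝ, Filter.Tendsto (fun R : ℝ => 2 * (1 + c * R⁻¹) ^ 2) Filter.atTop (nhds 2) :=
    fun c => by
      simpa using (((tendsto_inv_atTop_zero (𝕜 := ℝ)).const_mul c).const_add 1).pow 2 |>.const_mul 2
  refine tendsto_of_tendsto_of_tendsto_of_le_of_le' (h (-1)) (h 1) ?_ ?_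
  · filter_upwards [Filter.eventually_ge_atTop 1] with R hR
    refine le_ciInf fun z => ?_
    rw [le_div_iff₀ (by positivity)]
    refine le_trans (le_of_eq ?_) (cnt2 z R hR).2.1
    field_simp
    ring
  · filter_upwards [Filter.eventually_ge_atTop 1] with R hR
    refine ciInf_le_of_le ⟨0, by rintro _ ⟨z, rfl⟩; positivity⟩ 0 ?_
    rw [div_le_iff₀ (by positivity)]
    refine (cnt2 0 R hR).2.2.trans (le_of_eq ?_)
    field_simp

theorem P3 (c : ℝ) (f : ℝ → ℂ) (hf : MemLp f 2 volume) :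
    ∑' p : ℤ × ℤ, ‖∫ x in Ioc (p.2 + c) (p.2 + c + 1), (𝐞 (p.1 * x / 1) : ℂ) * f x‖ₑ ^ 2 =
      ∫⁻ x, ‖f x‖ₑ ^ 2 := by
  rw [ENNReal.tsum_prod', ENNReal.tsum_comm]
  simp only [P1 _ 1 one_pos f (hf.restrict _), ENNReal.ofReal_one, one_mul]
  rw [← lintegral_iUnion (fun _ => measurableSet_Ioc), eq_univ_of_forall (s := ⋃ _, _),
    Measure.restrict_univ]
  · intro t
    refine mem_iUnion.mpr ⟨⌈t - c⌉ - 1, ?_, ?_⟩ <;> push_cast
    · linarith [Int.ceil_lt_add_one (t - c)]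
    · linarith [Int.le_ceil (t - c)]
  · intro k k' hk
    refine disjoint_left.mpr fun t h1 h2 => hk ?_
    have a1 : (k : ℝ) < k' + 1 := by linarith [h1.1, h2.2]
    have a2 : (k' : ℝ) < k + 1 := by linarith [h1.2, h2.1]
    norm_cast at a1 a2
    omega

theorem half (c : ℝ) (f : ℝ → ℂ) (hf : MemLp f 2 volume) :
    ∑' p : ℤ × ℤ, ‖∫ t : ℝ, f t * (starRingEnd ℂ)
      (Complex.exp (2 * (π : ℂ) * Complex.I * ((p.1 : ℝ) : ℂ) * (t : ℂ)) * g (t - (p.2 + c)))‖ₑ ^ 2 =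
      ∫⁻ t, ‖f t‖ₑ ^ 2 * ENNReal.ofReal (sin (2 * π * (t - c)) ^ 2) := by
  have hF : MemLp (fun t => f t * ((sin (2 * π * (t - c)) : ℝ) : ℂ)) 2 volume := by
    refine hf.of_le (hf.1.mul (Continuous.aestronglyMeasurable (by fun_prop)))
      (.of_forall fun t => ?_)
    rw [norm_mul, Complex.norm_real]
    exact mul_le_of_le_one_right (norm_nonneg _) (abs_sin_le_one _)
  have h := P3 (c - 1 / 2) _ hF
  simp only [enorm_mul, mul_pow, esq ((_ : ℝ) : ℂ), Complex.norm_real, Real.norm_eq_abs,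
    sq_abs] at h
  rw [← h, ← ((Equiv.neg ℤ).prodCongr (Equiv.refl ℤ)).tsum_eq]
  refine tsum_congr fun p => ?_
  rw [← integral_indicator measurableSet_Ioc]
  congr 3
  funext t
  rw [g_eq]
  simp only [Equiv.prodCongr_apply, Prod.map_fst, Prod.map_snd, Equiv.neg_apply, Equiv.refl_apply]
  by_cases ht : t ∈ Ioc (p.2 + (c - 1 / 2)) (p.2 + (c - 1 / 2) + 1)
  · rw [indicator_of_mem ht, indicator_of_mem (by constructor <;> linarith [ht.1, ht.2]), map_mul,
      Complex.conj_ofReal, ← Complex.exp_conj, Real.fourierChar_apply,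
      show 2 * π * (t - (p.2 + c)) = 2 * π * (t - c) - p.2 * (2 * π) by ring,
      Real.sin_sub_int_mul_two_pi, mul_left_comm]
    congr 2
    simp only [map_mul, Complex.conj_ofReal, Complex.conj_I, map_ofNat]
    push_cast
    ring
  · rw [indicator_of_notMem ht, indicator_of_notMem fun h => ht ⟨by linarith [h.1], by linarith [h.2]⟩]
    simp

theorem frame (f : ℝ → ℂ) (hf : MemLp f 2 volume) :
    HasSum (fun γ : range ph => ‖∫ t : ℝ, f t * (starRingEnd ℂ)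
      (Complex.exp (2 * (Real.pi : ℂ) * Complex.I * (((γ : ℝ × ℝ).2 : ℝ) : ℂ) * (t : ℂ))
        * g (t - (γ : ℝ × ℝ).1))‖ ^ 2) (∫ t : ℝ, ‖f t‖ ^ 2) := by
  rw [← (Equiv.ofInjective ph ph_inj).hasSum_iff]
  have h : ∑' q : Fin 2 × ℤ × ℤ, ‖∫ t : ℝ, f t * (starRingEnd ℂ)
      (Complex.exp (2 * (π : ℂ) * Complex.I * ((q.2.1 : ℝ) : ℂ) * (t : ℂ)) *
        g (t - (q.2.2 + (q.1 : ℕ) / 4)))‖ₑ ^ 2 = ENNReal.ofReal (∫ t : ℝ, ‖f t‖ ^ 2) := by
    rw [ENNReal.tsum_prod', tsum_fintype, Fin.sum_univ_two]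
    dsimp only
    rw [half _ f hf, half _ f hf,
      ← lintegral_add_left' ((hf.1.enorm.pow_const 2).fun_mul
        (Measurable.aemeasurable (by fun_prop))),
      ofReal_integral_eq_lintegral_ofReal (hf.integrable_norm_pow two_ne_zero)
        (.of_forall fun _ => by positivity)]
    refine lintegral_congr fun t => ?_
    rw [← mul_add, ← ENNReal.ofReal_add (sq_nonneg _) (sq_nonneg _), esq]
    simp only [Fin.val_zero, Fin.val_one, Nat.cast_zero, Nat.cast_one, zero_div, sub_zero]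
    rw [show 2 * π * (t - 1 / 4) = 2 * π * t - π / 2 by ring, Real.sin_sub_pi_div_two, neg_sq,
      Real.sin_sq_add_cos_sq, ENNReal.ofReal_one, mul_one]
  have h2 := ENNReal.hasSum_toReal (h ▸ ENNReal.ofReal_ne_top)
  rw [← ENNReal.tsum_toReal_eq (fun _ => by simp), h,
    ENNReal.toReal_ofReal (integral_nonneg fun _ => by positivity)] at h2
  simp only [ENNReal.toReal_pow, toReal_enorm] at h2
  exact h2

end Pool.Agent.H.MP_41f43f_an
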